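import Mathlib

set_option autoImplicit false
open Set

/-!
An injunctive subshift over the integers that is not surjunctive (the construction used for the
frozen statement S04759, copied here so that it does not depend on the frozen file).

The subshift consists of monotone sequences with values in 0..4.  A monotone sequence is given by
its four thresholds (the place where it first reaches 1, 2, 3, 4), each an integer or plus/minus
infinity.  The subshift has the one condition: if thresholds 2 and 3 are both finite then for some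
naturals n, j the four thresholds are t, t+n, t+2n+2^j, t+3n+2^j+(j mod 2).
Moving threshold c by c-1 to the right is an injective endomorphism that is not surjective.
For a surjective endomorphism: the tails are preserved; the points with tails (0,2) and (2,4) are
the limits of the full points, and the relation between them forces the endomorphism to be a power
of the shift on all non-full points; so after composing with a shift it is the identity on all but
finitely many orbits, and then a surjection is an injection.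
-/

namespace Pool.Agent.Lib.MP5b6163


/-- shift by c -/
def sh (c : ℤ) (x : ℤ → Fin 5) : ℤ → Fin 5 := fun k => x (k + c)

/-- value at position jumps across level c at s -/
def Lo (x : ℤ → Fin 5) (c : ℕ) (s : ℤ) : Prop := (x (s-1)).val < c ∧ c ≤ (x s).val

def XX : Set (ℤ → Fin 5) := {x | (∀ k, (x k).val ≤ (x (k+1)).val) ∧
  ∀ s t : ℤ, Lo x 2 s → Lo x 3 t →
    ∃ n j : ℕ, t = s + n + 2^j ∧ Lo x 1 (s - n) ∧ Lo x 4 (t + n + (j%2 : ℕ))}

theorem sh_apply (c : ℤ) (x : ℤ → Fin 5) (k : ℤ) : sh c x k = x (k + c) := rfl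

theorem sh_sh (a b : ℤ) (x : ℤ → Fin 5) : sh a (sh b x) = sh (a + b) x := by
  funext k; simp [sh, add_assoc]

theorem sh_zero (x : ℤ → Fin 5) : sh 0 x = x := by
  funext k; simp [sh]

theorem Lo_sh (x : ℤ → Fin 5) (c : ℕ) (s a : ℤ) : Lo (sh a x) c s ↔ Lo x c (s + a) := by
  unfold Lo sh
  have : s - 1 + a = s + a - 1 := by ring
  rw [this]

theorem XX_sh {x : ℤ → Fin 5} (hx : x ∈ XX) (a : ℤ) : sh a x ∈ XX := by
  refine ⟨fun k => ?_, fun s t hs ht => ?_⟩
  · have := hx.1 (k + a)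
    simp only [sh_apply]
    have e : k + 1 + a = k + a + 1 := by ring
    rw [e]; exact this
  · rw [Lo_sh] at hs ht
    obtain ⟨n, j, h1, h2, h3⟩ := hx.2 _ _ hs ht
    refine ⟨n, j, by linarith, ?_, ?_⟩
    · rw [Lo_sh]; convert h2 using 1; ring
    · rw [Lo_sh]; convert h3 using 1; ring

theorem XX_sh_iff {x : ℤ → Fin 5} (a : ℤ) : sh a x ∈ XX ↔ x ∈ XX := by
  refine ⟨fun h => ?_, fun h => XX_sh h a⟩
  have := XX_sh h (-a)
  rw [sh_sh] at this
  simpa [sh_zero] using this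

theorem mono_of {x : ℤ → Fin 5} (h : ∀ k, (x k).val ≤ (x (k+1)).val) {a b : ℤ} (hab : a ≤ b) :
    (x a).val ≤ (x b).val := by
  have : Monotone (fun k => (x k).val) := monotone_int_of_le_succ h
  exact this hab

/-- trichotomy for thresholds -/
theorem tri {x : ℤ → Fin 5} (h : ∀ k, (x k).val ≤ (x (k+1)).val) (c : ℕ) :
    (∀ k, (x k).val < c) ∨ (∀ k, c ≤ (x k).val) ∨ ∃ s, ∀ k, c ≤ (x k).val ↔ s ≤ k := by
  by_cases h1 : ∀ k, (x k).val < c
  · exact Or.inl h1
  by_cases h2 : ∀ k, c ≤ (x k).val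
  · exact Or.inr (Or.inl h2)
  right; right
  push Not at h1 h2
  obtain ⟨b, hb⟩ := h1
  obtain ⟨a, ha⟩ := h2
  obtain ⟨s, hs1, hs2⟩ := Int.exists_least_of_bdd (P := fun k => c ≤ (x k).val)
    ⟨a, fun z hz => by
      by_contra hlt
      push Not at hlt
      have := mono_of h hlt.le
      omega⟩ ⟨b, hb⟩
  refine ⟨s, fun k => ⟨fun hk => hs2 k hk, fun hk => ?_⟩⟩
  have := mono_of h hk
  omega

theorem th_of_Lo {x : ℤ → Fin 5} (h : ∀ k, (x k).val ≤ (x (k+1)).val) {c : ℕ} {s : ℤ}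
    (hs : Lo x c s) : ∀ k, c ≤ (x k).val ↔ s ≤ k := by
  intro k
  constructor
  · intro hk
    by_contra hlt
    push Not at hlt
    have := mono_of h (show k ≤ s - 1 by omega)
    have := hs.1
    omega
  · intro hk
    have := mono_of h hk
    have := hs.2
    omega

theorem Lo_of_th {x : ℤ → Fin 5} {c : ℕ} {s : ℤ} (h : ∀ k, c ≤ (x k).val ↔ s ≤ k) : Lo x c s := by
  constructor
  · by_contra hlt
    push Not at hlt
    have := (h (s-1)).1 hlt
    omega
  · exact (h s).2 le_rfl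

theorem Lo_unique {x : ℤ → Fin 5} (h : ∀ k, (x k).val ≤ (x (k+1)).val) {c : ℕ} {s t : ℤ}
    (hs : Lo x c s) (ht : Lo x c t) : s = t := by
  have h1 := th_of_Lo h hs
  have h2 := th_of_Lo h ht
  have := (h1 t).1 ((h2 t).2 le_rfl)
  have := (h2 s).1 ((h1 s).2 le_rfl)
  omega

/-- full points -/
def Full (n j : ℕ) (t : ℤ) : ℤ → Fin 5 := fun k =>
  if k < t then 0 else if k < t + n then 1 else if k < t + 2 * n + 2^j then 2 else
    if k < t + 3 * n + 2^j + (j%2 : ℕ) then 3 else 4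

def Z1 (n : ℕ) (t : ℤ) : ℤ → Fin 5 := fun k =>
  if k < t then 0 else if k < t + n then 1 else 2

def Z2 (n : ℕ) (t : ℤ) : ℤ → Fin 5 := fun k =>
  if k < t then 2 else if k < t + n then 3 else 4

def Wl (i : Fin 4) (t : ℤ) : ℤ → Fin 5 := fun k => if k < t then i.castSucc else i.succ

def Cn (i : Fin 5) : ℤ → Fin 5 := fun _ => i

/-- full points by thresholds -/
theorem eq_of_th {x y : ℤ → Fin 5} (h : ∀ c : ℕ, 1 ≤ c → c ≤ 4 → ∀ k, c ≤ (x k).val ↔ c ≤ (y k).val) :
    x = y := by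
  funext k
  apply Fin.ext
  have h1 := h 1 (by norm_num) (by norm_num) k
  have h2 := h 2 (by norm_num) (by norm_num) k
  have h3 := h 3 (by norm_num) (by norm_num) k
  have h4 := h 4 (by norm_num) (by norm_num) k
  have := (x k).isLt
  have := (y k).isLt
  omega

theorem Full_th1 (n j : ℕ) (t : ℤ) (k : ℤ) : 1 ≤ (Full n j t k).val ↔ t ≤ k := by
  unfold Full
  have : (0:ℤ) < 2^j := by positivity
  split_ifs <;> simp <;> omega

theorem Full_th2 (n j : ℕ) (t : ℤ) (k : ℤ) : 2 ≤ (Full n j t k).val ↔ t + n ≤ k := by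
  unfold Full
  have : (0:ℤ) < 2^j := by positivity
  split_ifs <;> simp <;> omega

theorem Full_th3 (n j : ℕ) (t : ℤ) (k : ℤ) : 3 ≤ (Full n j t k).val ↔ t + 2 * n + 2^j ≤ k := by
  unfold Full
  have : (0:ℤ) < 2^j := by positivity
  split_ifs <;> simp <;> omega

theorem Full_th4 (n j : ℕ) (t : ℤ) (k : ℤ) :
    4 ≤ (Full n j t k).val ↔ t + 3 * n + 2^j + (j%2 : ℕ) ≤ k := by
  unfold Full
  have : (0:ℤ) < 2^j := by positivity
  split_ifs <;> simp <;> omega

theorem Z1_th1 (n : ℕ) (t : ℤ) (k : ℤ) : 1 ≤ (Z1 n t k).val ↔ t ≤ k := by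
  unfold Z1; split_ifs <;> simp <;> omega
theorem Z1_th2 (n : ℕ) (t : ℤ) (k : ℤ) : 2 ≤ (Z1 n t k).val ↔ t + n ≤ k := by
  unfold Z1; split_ifs <;> simp <;> omega
theorem Z1_lt (n : ℕ) (t : ℤ) (k : ℤ) : (Z1 n t k).val < 3 := by
  unfold Z1; split_ifs <;> simp
theorem Z2_th3 (n : ℕ) (t : ℤ) (k : ℤ) : 3 ≤ (Z2 n t k).val ↔ t ≤ k := by
  unfold Z2; split_ifs <;> simp <;> omega
theorem Z2_th4 (n : ℕ) (t : ℤ) (k : ℤ) : 4 ≤ (Z2 n t k).val ↔ t + n ≤ k := by
  unfold Z2; split_ifs <;> simp <;> omega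
theorem Z2_ge (n : ℕ) (t : ℤ) (k : ℤ) : 2 ≤ (Z2 n t k).val := by
  unfold Z2; split_ifs <;> simp

theorem Full_mem (n j : ℕ) (t : ℤ) : Full n j t ∈ XX := by
  have hm : ∀ k, (Full n j t k).val ≤ (Full n j t (k+1)).val := by
    intro k
    have a1 := Full_th1 n j t k
    have a2 := Full_th2 n j t k
    have a3 := Full_th3 n j t k
    have a4 := Full_th4 n j t k
    have b1 := Full_th1 n j t (k+1)
    have b2 := Full_th2 n j t (k+1)
    have b3 := Full_th3 n j t (k+1)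
    have b4 := Full_th4 n j t (k+1)
    have := (Full n j t k).isLt
    have := (Full n j t (k+1)).isLt
    generalize (2:ℤ)^j = P at *
    omega
  refine ⟨hm, fun s u hs hu => ?_⟩
  have e2 : s = t + n := Lo_unique hm hs (Lo_of_th (Full_th2 n j t))
  have e3 : u = t + 2 * n + 2^j := Lo_unique hm hu (Lo_of_th (Full_th3 n j t))
  refine ⟨n, j, by rw [e2, e3]; ring, ?_, ?_⟩
  · have := Lo_of_th (Full_th1 n j t)
    convert this using 1; rw [e2]; ring
  · have := Lo_of_th (Full_th4 n j t)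
    convert this using 1; rw [e3]; ring

theorem Z1_mem (n : ℕ) (t : ℤ) : Z1 n t ∈ XX := by
  refine ⟨fun k => ?_, fun s u hs hu => ?_⟩
  · unfold Z1; split_ifs <;> simp <;> omega
  · have := Z1_lt n t u
    have := hu.2
    omega

theorem Z2_mem (n : ℕ) (t : ℤ) : Z2 n t ∈ XX := by
  refine ⟨fun k => ?_, fun s u hs hu => ?_⟩
  · unfold Z2; split_ifs <;> simp <;> omega
  · have := Z2_ge n t (s-1)
    have := hs.1
    omega

theorem Cn_mem (i : Fin 5) : Cn i ∈ XX := by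
  refine ⟨fun k => le_rfl, fun s u hs hu => ?_⟩
  have h1 := hs.1
  have h2 := hs.2
  simp only [Cn] at h1 h2
  omega

theorem Wl_mem (i : Fin 4) (t : ℤ) : Wl i t ∈ XX := by
  refine ⟨fun k => ?_, fun s u hs hu => ?_⟩
  · unfold Wl; split_ifs <;> simp <;> omega
  · have h1 := hs.1
    have h2 := hs.2
    have h3 := hu.1
    have h4 := hu.2
    simp only [Wl] at h1 h2 h3 h4
    split_ifs at h1 h2 h3 h4 <;> simp at h1 h2 h3 h4 <;> omega

theorem full_of {x : ℤ → Fin 5} (hx : x ∈ XX) {s u : ℤ} (hs : Lo x 2 s) (hu : Lo x 3 u) :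
    ∃ (n j : ℕ) (t : ℤ), x = Full n j t := by
  obtain ⟨n, j, h1, h2, h3⟩ := hx.2 s u hs hu
  refine ⟨n, j, s - n, ?_⟩
  apply eq_of_th
  intro c hc1 hc4 k
  have t1 := th_of_Lo hx.1 h2 k
  have t2 := th_of_Lo hx.1 hs k
  have t3 := th_of_Lo hx.1 hu k
  have t4 := th_of_Lo hx.1 h3 k
  have a1 := Full_th1 n j (s-n) k
  have a2 := Full_th2 n j (s-n) k
  have a3 := Full_th3 n j (s-n) k
  have a4 := Full_th4 n j (s-n) k
  generalize (2:ℤ)^j = P at *
  interval_cases c <;> omega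

theorem classify {x : ℤ → Fin 5} (hx : x ∈ XX) :
    (∃ (n j : ℕ) (t : ℤ), x = Full n j t) ∨ (∃ (n : ℕ) (t : ℤ), x = Z1 n t) ∨
    (∃ (n : ℕ) (t : ℤ), x = Z2 n t) ∨ (∃ i t, x = Wl i t) ∨ (∃ i, x = Cn i) := by
  have hm := hx.1
  rcases tri hm 2 with A | B | ⟨s2, C⟩
  · right; right; right
    rcases tri hm 1 with a | b | ⟨s, c⟩
    · right; refine ⟨0, ?_⟩; funext k; apply Fin.ext; have := a k; simp [Cn]; omega
    · right; refine ⟨1, ?_⟩; funext k; apply Fin.ext; have := b k; have := A k; simp [Cn]; omega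
    · left; refine ⟨0, s, ?_⟩; funext k; apply Fin.ext
      have := c k; have := A k; unfold Wl; split_ifs <;> simp <;> omega
  · rcases tri hm 3 with a | b | ⟨s, c⟩
    · right; right; right; right; refine ⟨2, ?_⟩; funext k; apply Fin.ext
      have := a k; have := B k; simp [Cn]; omega
    · rcases tri hm 4 with a' | b' | ⟨s', c'⟩
      · right; right; right; right; refine ⟨3, ?_⟩; funext k; apply Fin.ext
        have := a' k; have := b k; simp [Cn]; omega
      · right; right; right; right; refine ⟨4, ?_⟩; funext k; apply Fin.ext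
        have := b' k; have := (x k).isLt; simp [Cn]; omega
      · right; right; right; left; refine ⟨3, s', ?_⟩; funext k; apply Fin.ext
        have := c' k; have := b k; have := (x k).isLt; unfold Wl; split_ifs <;> simp <;> omega
    · rcases tri hm 4 with a' | b' | ⟨s', c'⟩
      · right; right; right; left; refine ⟨2, s, ?_⟩; funext k; apply Fin.ext
        have := c k; have := a' k; have := B k; unfold Wl; split_ifs <;> simp <;> omega
      · exfalso
        have := b' (s-1)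
        have := c (s-1)
        omega
      · right; right; left
        have hss : s ≤ s' := by
          have h1 := (c' s').2 le_rfl
          exact (c s').1 (by omega)
        refine ⟨(s' - s).toNat, s, ?_⟩; funext k; apply Fin.ext
        have := c k; have := c' k; have := B k; have := (x k).isLt
        have : ((s' - s).toNat : ℤ) = s' - s := Int.toNat_of_nonneg (by omega)
        unfold Z2; split_ifs <;> simp <;> omega
  · rcases tri hm 3 with a | b | ⟨s, c⟩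
    · rcases tri hm 1 with a' | b' | ⟨s', c'⟩
      · exfalso
        have := a' s2
        have := C s2
        omega
      · right; right; right; left; refine ⟨1, s2, ?_⟩; funext k; apply Fin.ext
        have := C k; have := a k; have := b' k; unfold Wl; split_ifs <;> simp <;> omega
      · right; left
        have hss : s' ≤ s2 := by
          have h1 := (C s2).2 le_rfl
          exact (c' s2).1 (by omega)
        refine ⟨(s2 - s').toNat, s', ?_⟩; funext k; apply Fin.ext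
        have := C k; have := c' k; have := a k
        have : ((s2 - s').toNat : ℤ) = s2 - s' := Int.toNat_of_nonneg (by omega)
        unfold Z1; split_ifs <;> simp <;> omega
    · exfalso
      have := b (s2 - 1)
      have := C (s2 - 1)
      omega
    · left
      exact full_of hx (Lo_of_th C) (Lo_of_th c)

/-- left tail -/
def LT (x : ℤ → Fin 5) (i : Fin 5) : Prop := ∃ K : ℤ, ∀ k ≤ K, x k = i
/-- right tail -/
def RT (x : ℤ → Fin 5) (i : Fin 5) : Prop := ∃ K : ℤ, ∀ k, K ≤ k → x k = i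

theorem LT_unique {x : ℤ → Fin 5} {i j : Fin 5} (h1 : LT x i) (h2 : LT x j) : i = j := by
  obtain ⟨K, hK⟩ := h1
  obtain ⟨K', hK'⟩ := h2
  rw [← hK (min K K') (min_le_left _ _), ← hK' (min K K') (min_le_right _ _)]

theorem RT_unique {x : ℤ → Fin 5} {i j : Fin 5} (h1 : RT x i) (h2 : RT x j) : i = j := by
  obtain ⟨K, hK⟩ := h1
  obtain ⟨K', hK'⟩ := h2
  rw [← hK (max K K') (le_max_left _ _), ← hK' (max K K') (le_max_right _ _)]

theorem LT_le_RT {x : ℤ → Fin 5} (hx : x ∈ XX) {i j : Fin 5} (h1 : LT x i) (h2 : RT x j) : i ≤ j := by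
  obtain ⟨K, hK⟩ := h1
  obtain ⟨K', hK'⟩ := h2
  rw [← hK (min K K') (min_le_left _ _), ← hK' (max K K') (le_max_right _ _)]
  exact mono_of hx.1 min_le_max

theorem LT_Full (n j : ℕ) (t : ℤ) : LT (Full n j t) 0 :=
  ⟨t - 1, fun k hk => by unfold Full; rw [if_pos (by omega)]⟩
theorem RT_Full (n j : ℕ) (t : ℤ) : RT (Full n j t) 4 := by
  refine ⟨t + 3 * n + 2^j + (j%2 : ℕ), fun k hk => ?_⟩
  have := (Full_th4 n j t k).2 hk
  apply Fin.ext
  have := (Full n j t k).isLt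
  simp; omega
theorem LT_Z1 (n : ℕ) (t : ℤ) : LT (Z1 n t) 0 :=
  ⟨t - 1, fun k hk => by unfold Z1; rw [if_pos (by omega)]⟩
theorem RT_Z1 (n : ℕ) (t : ℤ) : RT (Z1 n t) 2 :=
  ⟨t + n, fun k hk => by unfold Z1; rw [if_neg (by omega), if_neg (by omega)]⟩
theorem LT_Z2 (n : ℕ) (t : ℤ) : LT (Z2 n t) 2 :=
  ⟨t - 1, fun k hk => by unfold Z2; rw [if_pos (by omega)]⟩
theorem RT_Z2 (n : ℕ) (t : ℤ) : RT (Z2 n t) 4 :=
  ⟨t + n, fun k hk => by unfold Z2; rw [if_neg (by omega), if_neg (by omega)]⟩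
theorem LT_Wl (i : Fin 4) (t : ℤ) : LT (Wl i t) i.castSucc :=
  ⟨t - 1, fun k hk => by unfold Wl; rw [if_pos (by omega)]⟩
theorem RT_Wl (i : Fin 4) (t : ℤ) : RT (Wl i t) i.succ :=
  ⟨t, fun k hk => by unfold Wl; rw [if_neg (by omega)]⟩
theorem LT_Cn (i : Fin 5) : LT (Cn i) i := ⟨0, fun _ _ => rfl⟩
theorem RT_Cn (i : Fin 5) : RT (Cn i) i := ⟨0, fun _ _ => rfl⟩

theorem exists_LT {x : ℤ → Fin 5} (hx : x ∈ XX) : ∃ i, LT x i := by
  rcases classify hx with ⟨n, j, t, rfl⟩ | ⟨n, t, rfl⟩ | ⟨n, t, rfl⟩ | ⟨i, t, rfl⟩ | ⟨i, rfl⟩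
  exacts [⟨_, LT_Full _ _ _⟩, ⟨_, LT_Z1 _ _⟩, ⟨_, LT_Z2 _ _⟩, ⟨_, LT_Wl _ _⟩, ⟨_, LT_Cn _⟩]

theorem exists_RT {x : ℤ → Fin 5} (hx : x ∈ XX) : ∃ i, RT x i := by
  rcases classify hx with ⟨n, j, t, rfl⟩ | ⟨n, t, rfl⟩ | ⟨n, t, rfl⟩ | ⟨i, t, rfl⟩ | ⟨i, rfl⟩
  exacts [⟨_, RT_Full _ _ _⟩, ⟨_, RT_Z1 _ _⟩, ⟨_, RT_Z2 _ _⟩, ⟨_, RT_Wl _ _⟩, ⟨_, RT_Cn _⟩]

theorem eq_Z1_of {x : ℤ → Fin 5} (hx : x ∈ XX) (h0 : LT x 0) (h2 : RT x 2) :
    ∃ (n : ℕ) (t : ℤ), x = Z1 n t := by
  rcases classify hx with ⟨n, j, t, rfl⟩ | ⟨n, t, rfl⟩ | ⟨n, t, rfl⟩ | ⟨i, t, rfl⟩ | ⟨i, rfl⟩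
  · have := RT_unique h2 (RT_Full _ _ _); simp at this
  · exact ⟨n, t, rfl⟩
  · have := RT_unique h2 (RT_Z2 _ _); simp at this
  · have h3 := LT_unique h0 (LT_Wl _ _)
    have h4 := RT_unique h2 (RT_Wl _ _)
    exfalso
    revert h3 h4
    fin_cases i <;> decide
  · have h3 := LT_unique h0 (LT_Cn _)
    have h4 := RT_unique h2 (RT_Cn _)
    rw [← h3] at h4
    simp at h4

theorem eq_Z2_of {x : ℤ → Fin 5} (hx : x ∈ XX) (h0 : LT x 2) (h2 : RT x 4) :
    ∃ (n : ℕ) (t : ℤ), x = Z2 n t := by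
  rcases classify hx with ⟨n, j, t, rfl⟩ | ⟨n, t, rfl⟩ | ⟨n, t, rfl⟩ | ⟨i, t, rfl⟩ | ⟨i, rfl⟩
  · have := LT_unique h0 (LT_Full _ _ _); simp at this
  · have := LT_unique h0 (LT_Z1 _ _); simp at this
  · exact ⟨n, t, rfl⟩
  · have h3 := LT_unique h0 (LT_Wl _ _)
    have h4 := RT_unique h2 (RT_Wl _ _)
    exfalso
    revert h3 h4
    fin_cases i <;> decide
  · have h3 := LT_unique h0 (LT_Cn _)
    have h4 := RT_unique h2 (RT_Cn _)
    rw [← h3] at h4
    simp at h4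

theorem eq_Full_of {x : ℤ → Fin 5} (hx : x ∈ XX) (h0 : LT x 0) (h2 : RT x 4) :
    ∃ (n j : ℕ) (t : ℤ), x = Full n j t := by
  rcases classify hx with ⟨n, j, t, rfl⟩ | ⟨n, t, rfl⟩ | ⟨n, t, rfl⟩ | ⟨i, t, rfl⟩ | ⟨i, rfl⟩
  · exact ⟨n, j, t, rfl⟩
  · have := RT_unique h2 (RT_Z1 _ _); simp at this
  · have := LT_unique h0 (LT_Z2 _ _); simp at this
  · have h3 := LT_unique h0 (LT_Wl _ _)
    have h4 := RT_unique h2 (RT_Wl _ _)
    exfalso
    revert h3 h4
    fin_cases i <;> decide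
  · have h3 := LT_unique h0 (LT_Cn _)
    have h4 := RT_unique h2 (RT_Cn _)
    rw [← h3] at h4
    simp at h4


structure Endo (f : (ℤ → Fin 5) → (ℤ → Fin 5)) : Prop where
  maps : MapsTo f XX XX
  cont : ContinuousOn f XX
  comm : ∀ x ∈ XX, f (fun i => x (i + 1)) = fun i => f x (i + 1)

theorem Endo.comm_sh {f} (hf : Endo f) {x : ℤ → Fin 5} (hx : x ∈ XX) (a : ℤ) :
    f (sh a x) = sh a (f x) := by
  have step : ∀ y ∈ XX, f (sh 1 y) = sh 1 (f y) := fun y hy => hf.comm y hy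
  induction a using Int.induction_on with
  | zero => rw [sh_zero, sh_zero]
  | succ a ih =>
    have e : sh ((a:ℤ)+1) x = sh 1 (sh a x) := by rw [sh_sh]; congr 1; ring
    rw [e, step _ (XX_sh hx _), ih, sh_sh]; congr 1; ring
  | pred a ih =>
    have e : sh (-(a:ℤ)) x = sh 1 (sh (-(a:ℤ)-1) x) := by rw [sh_sh]; congr 1; ring
    have h2 := step _ (XX_sh hx (-(a:ℤ)-1))
    rw [← e, ih] at h2
    have h3 := congrArg (sh (-1)) h2
    rw [sh_sh, sh_sh] at h3
    simp only [neg_add_cancel, sh_zero] at h3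
    rw [← h3]; congr 1; ring

theorem Endo.loc {f} (hf : Endo f) {y : ℤ → Fin 5} (hy : y ∈ XX) (k : ℤ) :
    ∃ R : ℕ, ∀ x ∈ XX, (∀ m : ℤ, |m| ≤ R → x m = y m) → f x k = f y k := by
  have h1 : ContinuousWithinAt f XX y := hf.cont y hy
  have hopen : IsOpen {u : ℤ → Fin 5 | u k = f y k} := by
    have h0 : IsOpen ((fun u : ℤ → Fin 5 => u k) ⁻¹' {f y k}) :=
      (isOpen_discrete _).preimage (continuous_apply k)
    exact h0
  have h2 := h1.preimage_mem_nhdsWithin (hopen.mem_nhds (by simp))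
  rw [mem_nhdsWithin] at h2
  obtain ⟨V, hVo, hyV, hV⟩ := h2
  obtain ⟨I, u, hu, hI⟩ := isOpen_pi_iff.1 hVo y hyV
  refine ⟨I.sup (fun i => i.natAbs), fun x hx hxy => ?_⟩
  have hxV : x ∈ V := by
    apply hI
    intro i hi
    have hi' : i ∈ I := hi
    have : x i = y i := by
      apply hxy
      have := Finset.le_sup (f := fun i : ℤ => i.natAbs) hi'
      have h3 : |i| = (i.natAbs : ℤ) := Int.abs_eq_natAbs i
      rw [h3]
      exact_mod_cast this
    rw [this]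
    exact (hu i hi').2
  exact hV ⟨hxV, hx⟩

theorem Endo.loc_fin {f} (hf : Endo f) {y : ℤ → Fin 5} (hy : y ∈ XX) (F : Finset ℤ) :
    ∃ R : ℕ, ∀ x ∈ XX, (∀ m : ℤ, |m| ≤ R → x m = y m) → ∀ k ∈ F, f x k = f y k := by
  choose R hR using fun k => hf.loc hy k
  refine ⟨F.sup R, fun x hx hxy k hk => hR k x hx fun m hm => hxy m ?_⟩
  have := Finset.le_sup (f := R) hk
  have h2 : (R k : ℤ) ≤ (F.sup R : ℕ) := by exact_mod_cast this
  omega

theorem Endo.const_img {f} (hf : Endo f) (i : Fin 5) : ∃ j, f (Cn i) = Cn j := by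
  refine ⟨f (Cn i) 0, ?_⟩
  have key : ∀ k, f (Cn i) k = f (Cn i) 0 := by
    intro k
    have h := hf.comm_sh (Cn_mem i) k
    have h2 : sh k (Cn i) = Cn i := rfl
    rw [h2] at h
    have h3 := congrFun h 0
    rw [sh_apply, zero_add] at h3
    exact h3.symm
  funext k
  exact key k

theorem Endo.tailL {f} (hf : Endo f) {i j : Fin 5} (hp : f (Cn i) = Cn j) {x : ℤ → Fin 5}
    (hx : x ∈ XX) (h : LT x i) : LT (f x) j := by
  obtain ⟨K, hK⟩ := h
  obtain ⟨R, hR⟩ := hf.loc (Cn_mem i) 0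
  refine ⟨K - R, fun k hk => ?_⟩
  have h1 := hR (sh k x) (XX_sh hx k) (fun m hm => by
    rw [sh_apply]
    have := abs_le.1 hm
    exact hK _ (by omega))
  rw [hf.comm_sh hx, sh_apply, zero_add, hp] at h1
  exact h1

theorem Endo.tailR {f} (hf : Endo f) {i j : Fin 5} (hp : f (Cn i) = Cn j) {x : ℤ → Fin 5}
    (hx : x ∈ XX) (h : RT x i) : RT (f x) j := by
  obtain ⟨K, hK⟩ := h
  obtain ⟨R, hR⟩ := hf.loc (Cn_mem i) 0
  refine ⟨K + R, fun k hk => ?_⟩
  have h1 := hR (sh k x) (XX_sh hx k) (fun m hm => by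
    rw [sh_apply]
    have := abs_le.1 hm
    exact hK _ (by omega))
  rw [hf.comm_sh hx, sh_apply, zero_add, hp] at h1
  exact h1

theorem Endo.const_fix {f} (hf : Endo f) (hs : SurjOn f XX XX) (i : Fin 5) : f (Cn i) = Cn i := by
  choose p hp using hf.const_img
  have hle : ∀ i : Fin 4, p i.castSucc ≤ p i.succ := by
    intro i
    have h1 := hf.tailL (hp i.castSucc) (Wl_mem i 0) (LT_Wl i 0)
    have h2 := hf.tailR (hp i.succ) (Wl_mem i 0) (RT_Wl i 0)
    exact LT_le_RT (hf.maps (Wl_mem i 0)) h1 h2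
  have hsur : ∀ j, ∃ i, p i = j := by
    intro j
    obtain ⟨x, hx, hxj⟩ := hs (Cn_mem j)
    obtain ⟨i, hi⟩ := exists_LT hx
    have h1 := hf.tailL (hp i) hx hi
    rw [hxj] at h1
    exact ⟨i, LT_unique h1 (LT_Cn j)⟩
  have hid : ∀ i, p i = i := by
    have h0 := hle 0
    have h1 := hle 1
    have h2 := hle 2
    have h3 := hle 3
    simp only [Fin.le_def] at h0 h1 h2 h3
    have e0 : p (Fin.castSucc (0 : Fin 4)) = p 0 := rfl
    have e1 : p (Fin.succ (0 : Fin 4)) = p 1 := rfl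
    have e2 : p (Fin.castSucc (1 : Fin 4)) = p 1 := rfl
    have e3 : p (Fin.succ (1 : Fin 4)) = p 2 := rfl
    have e4 : p (Fin.castSucc (2 : Fin 4)) = p 2 := rfl
    have e5 : p (Fin.succ (2 : Fin 4)) = p 3 := rfl
    have e6 : p (Fin.castSucc (3 : Fin 4)) = p 3 := rfl
    have e7 : p (Fin.succ (3 : Fin 4)) = p 4 := rfl
    rw [e0, e1] at h0
    rw [e2, e3] at h1
    rw [e4, e5] at h2
    rw [e6, e7] at h3
    have hs' : ∀ j : ℕ, j < 5 → (p 0).val = j ∨ (p 1).val = j ∨ (p 2).val = j ∨ (p 3).val = j ∨ (p 4).val = j := by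
      intro j hj
      obtain ⟨i, hi⟩ := hsur ⟨j, hj⟩
      have hi' : (p i).val = j := by rw [hi]
      fin_cases i
      · left; exact hi'
      · right; left; exact hi'
      · right; right; left; exact hi'
      · right; right; right; left; exact hi'
      · right; right; right; right; exact hi'
    have q0 := hs' 0 (by norm_num)
    have q1 := hs' 1 (by norm_num)
    have q2 := hs' 2 (by norm_num)
    have q3 := hs' 3 (by norm_num)
    have q4 := hs' 4 (by norm_num)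
    have l0 := (p 0).isLt
    have l1 := (p 1).isLt
    have l2 := (p 2).isLt
    have l3 := (p 3).isLt
    have l4 := (p 4).isLt
    intro i
    apply Fin.ext
    fin_cases i
    · show (p 0).val = 0; omega
    · show (p 1).val = 1; omega
    · show (p 2).val = 2; omega
    · show (p 3).val = 3; omega
    · show (p 4).val = 4; omega
  rw [hp, hid]


theorem pow_lac {i j : ℕ} {c : ℤ} (h : (2:ℤ)^j - 2^i = c) (hc : 2 * |c| < 2^j) : i = j ∧ c = 0 := by
  rcases lt_trichotomy i j with hij | hij | hij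
  · exfalso
    have h1 : (2:ℤ)^i ≤ 2^(j-1) := pow_le_pow_right₀ (by norm_num) (by omega)
    have h2 : (2:ℤ)^j = 2 * 2^(j-1) := by
      rw [← pow_succ']; congr 1; omega
    have := abs_le.1 (le_refl |c|)
    have h3 := this.2
    omega
  · subst hij; simp at h; exact ⟨rfl, h.symm⟩
  · exfalso
    have h1 : (2:ℤ)^(j+1) ≤ 2^i := pow_le_pow_right₀ (by norm_num) (by omega)
    have h2 : (2:ℤ)^(j+1) = 2 * 2^j := pow_succ' _ _
    have := neg_le_abs c
    have : (0:ℤ) < 2^j := by positivity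
    omega

theorem sh_Full (n j : ℕ) (t a : ℤ) : sh a (Full n j t) = Full n j (t - a) := by
  apply eq_of_th
  intro c hc1 hc4 k
  rw [sh_apply]
  have a1 := Full_th1 n j t (k+a)
  have a2 := Full_th2 n j t (k+a)
  have a3 := Full_th3 n j t (k+a)
  have a4 := Full_th4 n j t (k+a)
  have b1 := Full_th1 n j (t-a) k
  have b2 := Full_th2 n j (t-a) k
  have b3 := Full_th3 n j (t-a) k
  have b4 := Full_th4 n j (t-a) k
  generalize (2:ℤ)^j = P at *
  interval_cases c <;> omega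

theorem sh_Z1 (n : ℕ) (t a : ℤ) : sh a (Z1 n t) = Z1 n (t - a) := by
  funext k
  rw [sh_apply]
  unfold Z1
  have e1 : (k + a < t) ↔ (k < t - a) := by omega
  have e2 : (k + a < t + n) ↔ (k < t - a + n) := by omega
  simp only [e1, e2]

theorem sh_Z2 (n : ℕ) (t a : ℤ) : sh a (Z2 n t) = Z2 n (t - a) := by
  funext k
  rw [sh_apply]
  unfold Z2
  have e1 : (k + a < t) ↔ (k < t - a) := by omega
  have e2 : (k + a < t + n) ↔ (k < t - a + n) := by omega
  simp only [e1, e2]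

theorem Z1_inj {n m : ℕ} {s t : ℤ} (h : Z1 n s = Z1 m t) : n = m ∧ s = t := by
  have h1 := fun k => Z1_th1 n s k
  have h2 := fun k => Z1_th2 n s k
  rw [h] at h1 h2
  have g1 := fun k => Z1_th1 m t k
  have g2 := fun k => Z1_th2 m t k
  have a1 := (h1 s).2 le_rfl
  rw [g1] at a1
  have a2 := (g1 t).2 le_rfl
  rw [h1] at a2
  have a3 := (h2 (s+n)).2 le_rfl
  rw [g2] at a3
  have a4 := (g2 (t+m)).2 le_rfl
  rw [h2] at a4
  omega

theorem Full_inj {n m i j : ℕ} {s t : ℤ} (h : Full n i s = Full m j t) : n = m ∧ i = j ∧ s = t := by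
  have h1 := fun k => Full_th1 n i s k
  have h2 := fun k => Full_th2 n i s k
  have h3 := fun k => Full_th3 n i s k
  rw [h] at h1 h2 h3
  have g1 := fun k => Full_th1 m j t k
  have g2 := fun k => Full_th2 m j t k
  have g3 := fun k => Full_th3 m j t k
  have a1 := (h1 s).2 le_rfl
  rw [g1] at a1
  have a2 := (g1 t).2 le_rfl
  rw [h1] at a2
  have a3 := (h2 (s+n)).2 le_rfl
  rw [g2] at a3
  have a4 := (g2 (t+m)).2 le_rfl
  rw [h2] at a4
  have a5 := (h3 _).2 le_rfl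
  rw [g3] at a5
  have a6 := (g3 _).2 le_rfl
  rw [h3] at a6
  have e1 : s = t := by omega
  have e2 : n = m := by omega
  subst e1 e2
  have e3 : (2:ℤ)^i = 2^j := by omega
  have e4 : (2:ℕ)^i = 2^j := by exact_mod_cast e3
  exact ⟨rfl, Nat.pow_right_injective le_rfl e4, rfl⟩

theorem Endo.img_Z1 {f} (hf : Endo f) (hs : SurjOn f XX XX) (n : ℕ) :
    ∃ (m : ℕ) (α : ℤ), f (Z1 n 0) = Z1 m α :=
  eq_Z1_of (hf.maps (Z1_mem n 0)) (hf.tailL (hf.const_fix hs 0) (Z1_mem n 0) (LT_Z1 n 0))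
    (hf.tailR (hf.const_fix hs 2) (Z1_mem n 0) (RT_Z1 n 0))

theorem Endo.img_Z2 {f} (hf : Endo f) (hs : SurjOn f XX XX) (n : ℕ) :
    ∃ (m : ℕ) (α : ℤ), f (Z2 n 0) = Z2 m α :=
  eq_Z2_of (hf.maps (Z2_mem n 0)) (hf.tailL (hf.const_fix hs 2) (Z2_mem n 0) (LT_Z2 n 0))
    (hf.tailR (hf.const_fix hs 4) (Z2_mem n 0) (RT_Z2 n 0))

theorem Endo.rel {f} (hf : Endo f) (n ε : ℕ) (hε : ε < 2) {m m' : ℕ} {α γ : ℤ}
    (h1 : f (Z1 n 0) = Z1 m α) (h2 : f (Z2 (n+ε) 0) = Z2 m' γ) :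
    m' = m + ε ∧ α + 2 * m = γ + 2 * n := by
  obtain ⟨R1, hR1⟩ := hf.loc_fin (Z1_mem n 0) {α-1, α, α+m-1, α+m}
  obtain ⟨R2, hR2⟩ := hf.loc_fin (Z2_mem (n+ε) 0) {γ-1, γ, γ+m'-1, γ+m'}
  obtain ⟨c, hc⟩ : ∃ c : ℤ, c = α + 2 * m - γ - 2 * n := ⟨_, rfl⟩
  obtain ⟨j, hj⟩ : ∃ j : ℕ, j = 2 * (R1 + R2 + c.natAbs + 1) + ε := ⟨_, rfl⟩
  have hjp : (j:ℤ) < 2^j := by exact_mod_cast Nat.lt_two_pow_self
  have hjm : j % 2 = ε := by omega
  have hca : |c| = (c.natAbs : ℤ) := Int.abs_eq_natAbs c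
  have hbig : 2 * (R1:ℤ) + 2 * R2 + 2 * |c| + 2 < 2^j := by
    rw [hca]; omega
  have hcnn := abs_nonneg c
  have hF := Full_mem n j 0
  have hy := hf.maps hF
  obtain ⟨y, hyd⟩ : ∃ y, y = f (Full n j 0) := ⟨_, rfl⟩
  rw [← hyd] at hy
  have A := hR1 _ hF (fun k hk => by
    have := abs_le.1 hk
    unfold Full Z1
    by_cases c1 : k < 0
    · rw [if_pos c1, if_pos c1]
    by_cases c2 : k < 0 + n
    · rw [if_neg c1, if_pos c2, if_neg c1, if_pos c2]
    · rw [if_neg c1, if_neg c2, if_neg c1, if_neg c2, if_pos (by omega)])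
  have B := hR2 _ (XX_sh hF (2*n+2^j)) (fun k hk => by
    have := abs_le.1 hk
    rw [sh_apply]
    unfold Full Z2
    rw [if_neg (by omega), if_neg (by omega)]
    by_cases c1 : k < 0
    · rw [if_pos (by omega), if_pos c1]
    by_cases c2 : k < 0 + (n + ε : ℕ)
    · rw [if_neg (by omega), if_pos (by rw [hjm]; push_cast at c2; omega), if_neg c1, if_pos c2]
    · rw [if_neg (by omega), if_neg (by rw [hjm]; push_cast at c2; omega), if_neg c1, if_neg c2])
  rw [hf.comm_sh hF] at B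
  rw [← hyd, h1] at A
  rw [← hyd, h2] at B
  have A1 : Lo y 1 α := by
    refine ⟨?_, ?_⟩
    · rw [A (α-1) (by simp)]
      have := Z1_th1 m α (α-1)
      omega
    · rw [A α (by simp)]
      exact (Z1_th1 m α α).2 le_rfl
  have A2 : Lo y 2 (α+m) := by
    refine ⟨?_, ?_⟩
    · rw [A (α+m-1) (by simp)]
      have := Z1_th2 m α (α+m-1)
      omega
    · rw [A (α+m) (by simp)]
      exact (Z1_th2 m α _).2 le_rfl
  have B3 : Lo (sh (2*n+2^j) y) 3 γ := by
    refine ⟨?_, ?_⟩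
    · rw [B (γ-1) (by simp)]
      have := Z2_th3 m' γ (γ-1)
      omega
    · rw [B γ (by simp)]
      exact (Z2_th3 m' γ γ).2 le_rfl
  have B4 : Lo (sh (2*n+2^j) y) 4 (γ+m') := by
    refine ⟨?_, ?_⟩
    · rw [B (γ+m'-1) (by simp)]
      have := Z2_th4 m' γ (γ+m'-1)
      omega
    · rw [B (γ+m') (by simp)]
      exact (Z2_th4 m' γ _).2 le_rfl
  rw [Lo_sh] at B3 B4
  obtain ⟨n', j', e1, e2, e3⟩ := hy.2 _ _ A2 B3
  have u1 := Lo_unique hy.1 e2 A1
  have u2 := Lo_unique hy.1 e3 B4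
  have hn : n' = m := by omega
  subst hn
  have hcc : (2:ℤ)^j - 2^j' = c := by rw [hc]; linarith
  obtain ⟨hjj, hc0⟩ := pow_lac hcc (by linarith)
  subst hjj
  rw [hjm] at u2
  constructor
  · have : (m':ℤ) = n' + ε := by linarith
    exact_mod_cast this
  · linarith

/-- main rigidity: a surjective endomorphism is a power of the shift on the Z-points -/
theorem Endo.rigid {f} (hf : Endo f) (hs : SurjOn f XX XX) :
    ∃ c : ℤ, (∀ n, f (Z1 n 0) = Z1 n c) ∧ (∀ n, f (Z2 n 0) = Z2 n c) := by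
  choose m α hα using hf.img_Z1 hs
  choose m' γ hγ using hf.img_Z2 hs
  have r0 := fun n => hf.rel n 0 (by norm_num) (hα n) (hγ (n+0))
  have r1 := fun n => hf.rel n 1 (by norm_num) (hα n) (hγ (n+1))
  simp only [add_zero] at r0
  have hm : ∀ n, m (n+1) = m n + 1 := fun n => by rw [← (r0 (n+1)).1, (r1 n).1]
  have hm2 : ∀ n, m n = m 0 + n := by
    intro n
    induction n with
    | zero => rfl
    | succ n ih => rw [hm, ih]; ring
  have hm0 : m 0 = 0 := by
    obtain ⟨x, hx, hxz⟩ := hs (Z1_mem 0 0)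
    obtain ⟨i, hi⟩ := exists_LT hx
    obtain ⟨k, hk⟩ := exists_RT hx
    have t1 := hf.tailL (hf.const_fix hs i) hx hi
    have t2 := hf.tailR (hf.const_fix hs k) hx hk
    rw [hxz] at t1 t2
    rw [LT_unique t1 (LT_Z1 0 0)] at hi
    rw [RT_unique t2 (RT_Z1 0 0)] at hk
    obtain ⟨n, t, rfl⟩ := eq_Z1_of hx hi hk
    have e : Z1 n t = sh (-t) (Z1 n 0) := by rw [sh_Z1]; congr 1; ring
    rw [e, hf.comm_sh (Z1_mem n 0), hα, sh_Z1] at hxz
    have := (Z1_inj hxz).1
    rw [hm2] at this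
    omega
  have hmn : ∀ n, m n = n := fun n => by rw [hm2, hm0, zero_add]
  have hmn' : ∀ n, m' n = n := fun n => by rw [(r0 n).1, hmn]
  have hag : ∀ n, α n = γ n := fun n => by
    have := (r0 n).2
    rw [hmn] at this
    linarith
  have hag' : ∀ n, α n = γ (n+1) := fun n => by
    have := (r1 n).2
    rw [hmn] at this
    linarith
  have hαc : ∀ n, α n = α 0 := by
    intro n
    induction n with
    | zero => rfl
    | succ n ih => rw [← ih, hag (n+1), hag' n]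
  refine ⟨α 0, fun n => ?_, fun n => ?_⟩
  · rw [hα, hmn, hαc]
  · rw [hγ, hmn', ← hag, hαc]


theorem clopen_coord (P : Fin 5 → Prop) (k : ℤ) : IsClopen {x : ℤ → Fin 5 | P (x k)} := by
  have h : IsClopen ((fun x : ℤ → Fin 5 => x k) ⁻¹' {v | P v}) :=
    (isClopen_discrete _).preimage (continuous_apply k)
  exact h

theorem clopen_Lo (c : ℕ) (s : ℤ) : IsClopen {x : ℤ → Fin 5 | Lo x c s} := by
  have h1 := clopen_coord (fun v => v.val < c) (s-1)
  have h2 := clopen_coord (fun v => c ≤ v.val) s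
  exact h1.inter h2

theorem closed_XX : IsClosed XX := by
  have e : XX = (⋂ k : ℤ, {x | (x k).val ≤ (x (k+1)).val}) ∩
      ⋂ s : ℤ, ⋂ t : ℤ, ({x | Lo x 2 s}ᶜ ∪ {x | Lo x 3 t}ᶜ ∪
        ⋃ p ∈ {p : ℕ × ℕ | t = s + p.1 + 2^p.2},
          ({x | Lo x 1 (s - p.1)} ∩ {x | Lo x 4 (t + p.1 + (p.2%2 : ℕ))})) := by
    ext x
    simp only [XX, mem_ofPred_eq, mem_inter_iff, mem_iInter, mem_union, mem_compl_iff, mem_iUnion,
      Prod.exists, exists_prop]
    constructor
    · rintro ⟨h1, h2⟩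
      refine ⟨h1, fun s t => ?_⟩
      by_cases hs : Lo x 2 s
      · by_cases ht : Lo x 3 t
        · obtain ⟨n, j, e1, e2, e3⟩ := h2 s t hs ht
          exact Or.inr ⟨n, j, e1, e2, e3⟩
        · exact Or.inl (Or.inr ht)
      · exact Or.inl (Or.inl hs)
    · rintro ⟨h1, h2⟩
      refine ⟨h1, fun s t hs ht => ?_⟩
      rcases h2 s t with (h | h) | ⟨n, j, e1, e2, e3⟩
      · exact absurd hs h
      · exact absurd ht h
      · exact ⟨n, j, e1, e2, e3⟩
  rw [e]
  refine IsClosed.inter (isClosed_iInter fun k => ?_) (isClosed_iInter fun s => isClosed_iInter fun t => ?_)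
  · have hc : Continuous (fun x : ℤ → Fin 5 => (x k, x (k+1))) :=
      (continuous_apply k).prodMk (continuous_apply (k+1))
    have h0 : IsClosed ((fun x : ℤ → Fin 5 => (x k, x (k+1))) ⁻¹' {p | p.1.val ≤ p.2.val}) :=
      (isClosed_discrete _).preimage hc
    exact h0
  · refine IsClosed.union (IsClosed.union (clopen_Lo 2 s).compl.isClosed (clopen_Lo 3 t).compl.isClosed) ?_
    refine Set.Finite.isClosed_biUnion ?_ fun p _ => (clopen_Lo _ _).isClosed.inter (clopen_Lo _ _).isClosed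
    apply Set.Finite.subset ((Finset.range ((t-s).toNat+1) ×ˢ Finset.range ((t-s).toNat+1)).finite_toSet)
    rintro ⟨n, j⟩ hp
    simp only [mem_ofPred_eq] at hp
    have h1 : (j:ℤ) < 2^j := by exact_mod_cast Nat.lt_two_pow_self
    have h2 : (0:ℤ) < 2^j := by positivity
    simp only [Finset.coe_product, Finset.coe_range, mem_prod, mem_Iio]
    omega

theorem compact_XX : IsCompact XX := closed_XX.isCompact

theorem sh_cont (c : ℤ) : Continuous (sh c) :=
  continuous_pi fun k => continuous_apply (k + c)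

theorem Endo.sh_comp {f} (hf : Endo f) (c : ℤ) : Endo (fun x => sh c (f x)) where
  maps := fun x hx => XX_sh (hf.maps hx) c
  cont := (sh_cont c).comp_continuousOn hf.cont
  comm := fun x hx => by
    have h := hf.comm x hx
    show sh c (f (fun i => x (i+1))) = _
    rw [h]
    funext k
    simp only [sh]
    congr 1
    ring

theorem Endo.fix_of_approx {g} (hg : Endo g) {y : ℤ → Fin 5} (hy : y ∈ XX)
    (h : ∀ R : ℕ, ∃ x ∈ XX, g x = x ∧ ∀ m : ℤ, |m| ≤ R → x m = y m) : g y = y := by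
  funext k
  obtain ⟨R, hR⟩ := hg.loc hy k
  obtain ⟨x, hx, hgx, hxy⟩ := h (max R k.natAbs)
  have h1 := hR x hx (fun m hm => hxy m (by push_cast; exact le_trans hm (le_max_left _ _)))
  rw [← h1, hgx]
  apply hxy
  rw [Int.abs_eq_natAbs]
  push_cast
  exact le_max_right _ _

theorem Endo.fix_nonfull {g} (hg : Endo g) (hs : SurjOn g XX XX)
    (h1 : ∀ n, g (Z1 n 0) = Z1 n 0) (h2 : ∀ n, g (Z2 n 0) = Z2 n 0) {x : ℤ → Fin 5} (hx : x ∈ XX)
    (hnf : ¬ ∃ (n j : ℕ) (t : ℤ), x = Full n j t) : g x = x := by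
  have h1' : ∀ n t, g (Z1 n t) = Z1 n t := fun n t => by
    have e : Z1 n t = sh (-t) (Z1 n 0) := by rw [sh_Z1]; congr 1; ring
    rw [e, hg.comm_sh (Z1_mem n 0), h1]
  have h2' : ∀ n t, g (Z2 n t) = Z2 n t := fun n t => by
    have e : Z2 n t = sh (-t) (Z2 n 0) := by rw [sh_Z2]; congr 1; ring
    rw [e, hg.comm_sh (Z2_mem n 0), h2]
  rcases classify hx with ⟨n, j, t, rfl⟩ | ⟨n, t, rfl⟩ | ⟨n, t, rfl⟩ | ⟨i, t, rfl⟩ | ⟨i, rfl⟩
  · exact absurd ⟨n, j, t, rfl⟩ hnf
  · exact h1' n t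
  · exact h2' n t
  · apply hg.fix_of_approx hx
    intro R
    obtain ⟨N, hN⟩ : ∃ N : ℕ, N = R + t.natAbs + 1 := ⟨_, rfl⟩
    fin_cases i
    · refine ⟨Z1 N t, Z1_mem _ _, h1' _ _, fun m hm => ?_⟩
      have := abs_le.1 hm
      unfold Z1 Wl
      by_cases c1 : m < t
      · rw [if_pos c1, if_pos c1]; rfl
      · rw [if_neg c1, if_neg c1, if_pos (by omega)]; rfl
    · refine ⟨Z1 N (t-N), Z1_mem _ _, h1' _ _, fun m hm => ?_⟩
      have := abs_le.1 hm
      unfold Z1 Wl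
      rw [if_neg (by omega)]
      by_cases c1 : m < t
      · rw [if_pos (by omega), if_pos c1]; rfl
      · rw [if_neg (by omega), if_neg c1]; rfl
    · refine ⟨Z2 N t, Z2_mem _ _, h2' _ _, fun m hm => ?_⟩
      have := abs_le.1 hm
      unfold Z2 Wl
      by_cases c1 : m < t
      · rw [if_pos c1, if_pos c1]; rfl
      · rw [if_neg c1, if_neg c1, if_pos (by omega)]; rfl
    · refine ⟨Z2 N (t-N), Z2_mem _ _, h2' _ _, fun m hm => ?_⟩
      have := abs_le.1 hm
      unfold Z2 Wl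
      rw [if_neg (by omega)]
      by_cases c1 : m < t
      · rw [if_pos (by omega), if_pos c1]; rfl
      · rw [if_neg (by omega), if_neg c1]; rfl
  · exact hg.const_fix hs i

theorem isolated (n j : ℕ) (t : ℤ) : ∃ U : Set (ℤ → Fin 5), IsOpen U ∧ Full n j t ∈ U ∧
    ∀ x ∈ XX, x ∈ U → x = Full n j t := by
  refine ⟨{x | Lo x 1 t} ∩ {x | Lo x 2 (t+n)} ∩ {x | Lo x 3 (t + 2 * n + 2^j)} ∩
    {x | Lo x 4 (t + 3 * n + 2^j + (j%2 : ℕ))},
    (((clopen_Lo _ _).isOpen.inter (clopen_Lo _ _).isOpen).inter (clopen_Lo _ _).isOpen).inter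
      (clopen_Lo _ _).isOpen, ⟨⟨⟨?_, ?_⟩, ?_⟩, ?_⟩, ?_⟩
  · exact Lo_of_th (Full_th1 n j t)
  · exact Lo_of_th (Full_th2 n j t)
  · exact Lo_of_th (Full_th3 n j t)
  · exact Lo_of_th (Full_th4 n j t)
  · rintro x hx ⟨⟨⟨h1, h2⟩, h3⟩, h4⟩
    apply eq_of_th
    intro c hc1 hc4 k
    have t1 := th_of_Lo hx.1 h1 k
    have t2 := th_of_Lo hx.1 h2 k
    have t3 := th_of_Lo hx.1 h3 k
    have t4 := th_of_Lo hx.1 h4 k
    have a1 := Full_th1 n j t k
    have a2 := Full_th2 n j t k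
    have a3 := Full_th3 n j t k
    have a4 := Full_th4 n j t k
    generalize (2:ℤ)^j = P at *
    interval_cases c <;> omega

theorem Endo.fin_exc {g} (hg : Endo g) (hs : SurjOn g XX XX)
    (h1 : ∀ n, g (Z1 n 0) = Z1 n 0) (h2 : ∀ n, g (Z2 n 0) = Z2 n 0) :
    {x | x ∈ XX ∧ g x 0 ≠ x 0}.Finite := by
  obtain ⟨K, hK⟩ : ∃ K : Set (ℤ → Fin 5), K = {x | x ∈ XX ∧ g x 0 ≠ x 0} := ⟨_, rfl⟩
  rw [← hK]
  have hKc : IsCompact K := by
    have hcont : ContinuousOn (fun x => (g x 0, x 0)) XX :=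
      ((continuous_apply (0:ℤ)).comp_continuousOn hg.cont).prodMk (continuous_apply (0:ℤ)).continuousOn
    have hcl : IsClosed (XX ∩ (fun x => (g x 0, x 0)) ⁻¹' {p : Fin 5 × Fin 5 | p.1 ≠ p.2}) :=
      hcont.preimage_isClosed_of_isClosed closed_XX (isClosed_discrete _)
    have e : K = XX ∩ (fun x => (g x 0, x 0)) ⁻¹' {p : Fin 5 × Fin 5 | p.1 ≠ p.2} := by
      rw [hK]; rfl
    rw [e]
    exact hcl.isCompact
  have hiso : ∀ x ∈ K, ∃ U : Set (ℤ → Fin 5), IsOpen U ∧ x ∈ U ∧ ∀ y ∈ XX, y ∈ U → y = x := by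
    intro x hx
    rw [hK] at hx
    by_cases hf : ∃ (n j : ℕ) (t : ℤ), x = Full n j t
    · obtain ⟨n, j, t, rfl⟩ := hf
      exact isolated n j t
    · exact absurd (congrFun (hg.fix_nonfull hs h1 h2 hx.1 hf) 0) hx.2
  choose! U hU1 hU2 hU3 using hiso
  obtain ⟨T, hT1, hT2⟩ := hKc.elim_nhds_subcover U (fun x hx => (hU1 x hx).mem_nhds (hU2 x hx))
  apply T.finite_toSet.subset
  intro y hy
  have := hT2 hy
  simp only [mem_iUnion, exists_prop] at this
  obtain ⟨x, hxT, hyx⟩ := this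
  have hyX : y ∈ XX := by rw [hK] at hy; exact hy.1
  rw [hU3 x (hT1 x hxT) y hyX hyx]
  exact hxT

theorem inj_of_surj_of_fin {α : Type*} (φ : α → α) (hs : Function.Surjective φ)
    (hF : {a | φ a ≠ a}.Finite) : Function.Injective φ := by
  obtain ⟨F, hFd⟩ : ∃ F : Set α, F = {a | φ a ≠ a} := ⟨_, rfl⟩
  rw [← hFd] at hF
  have hsF : F ⊆ φ '' F := by
    intro a ha
    obtain ⟨b, hb⟩ := hs a
    refine ⟨b, ?_, hb⟩
    rw [hFd]
    intro hbb
    rw [hFd] at ha
    apply ha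
    have hab : a = b := hb.symm.trans hbb
    rw [hab]; exact hbb
  have hcard : φ '' F = F := by
    symm
    apply Set.eq_of_subset_of_ncard_le hsF (Set.ncard_image_le hF) (hF.image φ)
  have hinj : Set.InjOn φ F := by
    apply Set.injOn_of_ncard_image_eq _ hF
    rw [hcard]
  intro a b hab
  by_cases ha : a ∈ F
  · by_cases hb : b ∈ F
    · exact hinj ha hb hab
    · have hb' : φ b = b := by
        by_contra h; exact hb (by rw [hFd]; exact h)
      rw [hb'] at hab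
      have : b ∈ φ '' F := ⟨a, ha, hab⟩
      rw [hcard] at this
      exact absurd this hb
  · have ha' : φ a = a := by
      by_contra h; exact ha (by rw [hFd]; exact h)
    by_cases hb : b ∈ F
    · rw [ha'] at hab
      have : a ∈ φ '' F := ⟨b, hb, hab.symm⟩
      rw [hcard] at this
      exact absurd this ha
    · have hb' : φ b = b := by
        by_contra h; exact hb (by rw [hFd]; exact h)
      rw [ha', hb'] at hab
      exact hab

theorem Endo.inj_core {g} (hg : Endo g) (hs : SurjOn g XX XX)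
    (h1 : ∀ n, g (Z1 n 0) = Z1 n 0) (h2 : ∀ n, g (Z2 n 0) = Z2 n 0) : InjOn g XX := by
  have hfin := hg.fin_exc hs h1 h2
  have hc : ∀ i, g (Cn i) = Cn i := hg.const_fix hs
  have himg : ∀ p : ℕ × ℕ, ∃ (q : ℕ × ℕ) (t : ℤ), g (Full p.1 p.2 0) = Full q.1 q.2 t := by
    intro p
    obtain ⟨n, j, t, h⟩ := eq_Full_of (hg.maps (Full_mem p.1 p.2 0))
      (hg.tailL (hc 0) (Full_mem _ _ _) (LT_Full _ _ _)) (hg.tailR (hc 4) (Full_mem _ _ _) (RT_Full _ _ _))
    exact ⟨(n, j), t, h⟩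
  choose φ θ hφ using himg
  have hφ' : ∀ n j t, g (Full n j t) = Full (φ (n,j)).1 (φ (n,j)).2 (θ (n,j) + t) := by
    intro n j t
    have e : Full n j t = sh (-t) (Full n j 0) := by rw [sh_Full]; congr 1; ring
    rw [e, hg.comm_sh (Full_mem _ _ _), hφ (n, j), sh_Full]; congr 1; ring
  have hsur : Function.Surjective φ := by
    rintro ⟨n, j⟩
    obtain ⟨x, hx, hxz⟩ := hs (Full_mem n j 0)
    obtain ⟨i, hi⟩ := exists_LT hx
    obtain ⟨k, hk⟩ := exists_RT hx
    have t1 := hg.tailL (hc i) hx hi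
    have t2 := hg.tailR (hc k) hx hk
    rw [hxz] at t1 t2
    rw [LT_unique t1 (LT_Full _ _ _)] at hi
    rw [RT_unique t2 (RT_Full _ _ _)] at hk
    obtain ⟨n', j', t', rfl⟩ := eq_Full_of hx hi hk
    rw [hφ'] at hxz
    obtain ⟨e1, e2, _⟩ := Full_inj hxz
    exact ⟨(n', j'), Prod.ext e1 e2⟩
  have hexc : {p | φ p ≠ p}.Finite := by
    have hk : ∀ p ∈ {p | φ p ≠ p}, ∃ k : ℤ, Full p.1 p.2 (-k) ∈ {x | x ∈ XX ∧ g x 0 ≠ x 0} := by
      intro p hp
      have hne : g (Full p.1 p.2 0) ≠ Full p.1 p.2 0 := by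
        intro h
        rw [hφ p] at h
        obtain ⟨e1, e2, _⟩ := Full_inj h
        exact hp (Prod.ext e1 e2)
      obtain ⟨k, hk⟩ := Function.ne_iff.1 hne
      refine ⟨k, Full_mem _ _ _, ?_⟩
      have e : Full p.1 p.2 (-k) = sh k (Full p.1 p.2 0) := by rw [sh_Full]; congr 1; ring
      rw [e, hg.comm_sh (Full_mem _ _ _), sh_apply, sh_apply, zero_add]
      exact hk
    choose! κ hκ using hk
    apply Set.Finite.of_injOn (f := fun p => Full p.1 p.2 (-κ p)) hκ ?_ hfin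
    intro p _ q _ hpq
    obtain ⟨e1, e2, _⟩ := Full_inj hpq
    exact Prod.ext e1 e2
  have hinj := inj_of_surj_of_fin φ hsur hexc
  intro x hx y hy hxy
  by_cases fx : ∃ (n j : ℕ) (t : ℤ), x = Full n j t
  · obtain ⟨n, j, t, rfl⟩ := fx
    by_cases fy : ∃ (n j : ℕ) (t : ℤ), y = Full n j t
    · obtain ⟨n', j', t', rfl⟩ := fy
      rw [hφ', hφ'] at hxy
      obtain ⟨e1, e2, e3⟩ := Full_inj hxy
      have e4 := hinj (Prod.ext e1 e2)
      have e5 := congrArg Prod.fst e4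
      have e6 := congrArg Prod.snd e4
      simp only at e5 e6
      subst e5 e6
      congr 1
      linarith
    · exfalso
      rw [hg.fix_nonfull hs h1 h2 hy fy, hφ'] at hxy
      exact fy ⟨_, _, _, hxy.symm⟩
  · by_cases fy : ∃ (n j : ℕ) (t : ℤ), y = Full n j t
    · exfalso
      obtain ⟨n, j, t, rfl⟩ := fy
      rw [hg.fix_nonfull hs h1 h2 hx fx, hφ'] at hxy
      exact fx ⟨_, _, _, hxy⟩
    · rwa [hg.fix_nonfull hs h1 h2 hx fx, hg.fix_nonfull hs h1 h2 hy fy] at hxy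

theorem Endo.inj {f} (hf : Endo f) (hs : SurjOn f XX XX) : InjOn f XX := by
  obtain ⟨c, hc1, hc2⟩ := hf.rigid hs
  have hg := hf.sh_comp c
  have hgs : SurjOn (fun x => sh c (f x)) XX XX := by
    intro y hy
    obtain ⟨x, hx, hxy⟩ := hs (XX_sh hy (-c))
    refine ⟨x, hx, ?_⟩
    show sh c (f x) = y
    rw [hxy, sh_sh]; simp [sh_zero]
  have h := hg.inj_core hgs (fun n => by show sh c (f (Z1 n 0)) = _; rw [hc1, sh_Z1]; simp)
    (fun n => by show sh c (f (Z2 n 0)) = _; rw [hc2, sh_Z2]; simp)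
  intro x hx y hy hxy
  exact h hx hy (by show sh c (f x) = sh c (f y); rw [hxy])

/-- the injective non-surjective endomorphism -/
def TT (x : ℤ → Fin 5) : ℤ → Fin 5 := fun k =>
  if 4 ≤ (x (k-3)).val then 4 else if 3 ≤ (x (k-2)).val then 3 else
    if 2 ≤ (x (k-1)).val then 2 else if 1 ≤ (x k).val then 1 else 0

theorem TT_cont : Continuous TT := by
  refine continuous_pi fun k => ?_
  have hc : Continuous (fun x : ℤ → Fin 5 => (x (k-3), x (k-2), x (k-1), x k)) := by fun_prop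
  have hd : Continuous (fun p : Fin 5 × Fin 5 × Fin 5 × Fin 5 =>
    (if 4 ≤ p.1.val then 4 else if 3 ≤ p.2.1.val then 3 else
    if 2 ≤ p.2.2.1.val then 2 else if 1 ≤ p.2.2.2.val then 1 else 0 : Fin 5)) :=
    continuous_of_discreteTopology
  exact hd.comp hc

theorem TT_th {x : ℤ → Fin 5} (h : ∀ k, (x k).val ≤ (x (k+1)).val) {c : ℕ} (h1 : 1 ≤ c) (h4 : c ≤ 4)
    (k : ℤ) : c ≤ (TT x k).val ↔ c ≤ (x (k - c + 1)).val := by
  have a1 := h (k-3)
  have a2 := h (k-2)
  have a3 := h (k-1)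
  have e1 : k - 3 + 1 = k - 2 := by ring
  have e2 : k - 2 + 1 = k - 1 := by ring
  have e3 : k - 1 + 1 = k := by ring
  rw [e1] at a1
  rw [e2] at a2
  rw [e3] at a3
  have b1 := (x k).isLt
  interval_cases c
  · have e : k - ((1:ℕ):ℤ) + 1 = k := by push_cast; ring
    rw [e]; unfold TT; split_ifs <;> simp <;> omega
  · have e : k - ((2:ℕ):ℤ) + 1 = k - 1 := by push_cast; ring
    rw [e]; unfold TT; split_ifs <;> simp <;> omega
  · have e : k - ((3:ℕ):ℤ) + 1 = k - 2 := by push_cast; ring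
    rw [e]; unfold TT; split_ifs <;> simp <;> omega
  · have e : k - ((4:ℕ):ℤ) + 1 = k - 3 := by push_cast; ring
    rw [e]; unfold TT; split_ifs <;> simp <;> omega

theorem TT_maps : MapsTo TT XX XX := by
  intro x hx
  have hT := fun {c : ℕ} (h1 : 1 ≤ c) (h4 : c ≤ 4) (k : ℤ) => TT_th hx.1 h1 h4 k
  have hmono : ∀ k, (TT x k).val ≤ (TT x (k+1)).val := by
    intro k
    have lt := (TT x k).isLt
    by_contra hlt
    push Not at hlt
    have := (hT (c := (TT x k).val) (by omega) (by omega) k).1 le_rfl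
    have h2 := (hT (c := (TT x k).val) (by omega) (by omega) (k+1)).2
      (le_trans this (mono_of hx.1 (by omega)))
    omega
  have hLo : ∀ {c : ℕ}, 1 ≤ c → c ≤ 4 → ∀ s : ℤ, Lo (TT x) c s ↔ Lo x c (s - c + 1) := by
    intro c h1 h4 s
    unfold Lo
    have a := hT h1 h4 (s-1)
    have b := hT h1 h4 s
    have e : s - 1 - (c:ℤ) + 1 = s - c + 1 - 1 := by ring
    rw [e] at a
    constructor
    · rintro ⟨u, v⟩
      exact ⟨by by_contra hh; push Not at hh; have := a.2 hh; omega, b.1 v⟩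
    · rintro ⟨u, v⟩
      exact ⟨by by_contra hh; push Not at hh; have := a.1 hh; omega, b.2 v⟩
  refine ⟨hmono, fun s t hs ht => ?_⟩
  rw [hLo (by norm_num) (by norm_num)] at hs ht
  obtain ⟨n, j, e1, e2, e3⟩ := hx.2 _ _ hs ht
  refine ⟨n + 1, j, by push_cast at e1 ⊢; linarith, ?_, ?_⟩
  · rw [hLo (by norm_num) (by norm_num)]
    convert e2 using 1; push_cast; ring
  · rw [hLo (by norm_num) (by norm_num)]
    convert e3 using 1; push_cast; ring

theorem TT_inj : InjOn TT XX := by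
  intro x hx y hy hxy
  apply eq_of_th
  intro c h1 h4 k
  have a := TT_th hx.1 h1 h4 (k + c - 1)
  have b := TT_th hy.1 h1 h4 (k + c - 1)
  have e : k + (c:ℤ) - 1 - c + 1 = k := by ring
  rw [e] at a b
  rw [← a, ← b, hxy]

theorem TT_not_surj : ¬ SurjOn TT XX XX := by
  intro h
  obtain ⟨x, hx, hxz⟩ := h (Z1_mem 0 0)
  have a := TT_th hx.1 (c := 1) le_rfl (by norm_num) (-1)
  have b := TT_th hx.1 (c := 2) (by norm_num) (by norm_num) 0
  rw [hxz] at a b
  rw [Z1_th1] at a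
  rw [Z1_th2] at b
  have b' := b.1 (by simp)
  have e : (0:ℤ) - (2:ℕ) + 1 = -1 := by norm_num
  rw [e] at b'
  have e' : (-1:ℤ) - (1:ℕ) + 1 = -1 := by norm_num
  rw [e'] at a
  have := a.2 (by omega)
  omega



end Pool.Agent.Lib.MP5b6163
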